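import Pool.Agent.Lib.MP_226ef1_lc.U.H39.Ana

/-!
# A1: blocks `x o^m x`
-/

set_option autoImplicit false

namespace Pool.Agent.Lib.MP_226ef1_lc.U.H39

universe u

theorem A1 : A1Statement.{u} := by
  classical
  intro J hJ α G main gen N o hA x hx hmx hg m hm hN
  obtain ⟨Z, hZ, hZx⟩ := hg
  have hZc : Z.card ≤ 5 := by
    have : Z ⊆ {x} := fun t ht => by simp [(hZx t).1 ht]
    exact (Finset.card_le_card this).trans (by simp)
  obtain ⟨V, hVx, hVG, ⟨o', ho', hom'⟩, hVl, hVp, hVN⟩ := hA.cons.c3 Z hZ hZc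
    fun t ht => by rw [(hZx t).1 ht]; exact hmx
  have ho'o : o' = o := (hA.hub o' (hVG o' ho').1).1 hom'
  subst ho'o
  have hom : ¬ main o' := hom'
  have hxo : x ≠ o' := fun h => hom (h ▸ hmx)
  set Y : Finset α := {x, o'} with hY
  have hYG : Y ⊆ G := by
    intro t ht
    rw [hY, Finset.mem_insert, Finset.mem_singleton] at ht
    rcases ht with rfl | rfl
    · exact hx
    · exact hA.oG
  have hZY : Z ⊆ Y := fun t ht => by rw [(hZx t).1 ht, hY]; simp
  have hYgen : gen Y := hA.core.gen_up Z Y hZ hZY hYG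
  have hVY : ∀ t, t ∈ V ↔ t ∈ Y := by
    intro t
    rw [hY, Finset.mem_insert, Finset.mem_singleton]
    constructor
    · intro ht
      by_cases hmt : main t
      · exact Or.inl ((hZx t).1 ((hVG t ht).2 hmt))
      · exact Or.inr ((hA.hub t (hVG t ht).1).1 hmt)
    · rintro (rfl | rfl)
      · exact hVx _ ((hZx _).2 rfl)
      · exact ho'
  have hmY : ∀ t ∈ Y, main t → t = x := by
    intro t ht hmt
    rw [hY, Finset.mem_insert, Finset.mem_singleton] at ht
    rcases ht with rfl | rfl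
    · rfl
    · exact absurd hmt hom
  have hoY : ∀ t ∈ Y, ¬ main t → t = o' := by
    intro t ht hmt
    rw [hY, Finset.mem_insert, Finset.mem_singleton] at ht
    rcases ht with rfl | rfl
    · exact absurd hmx hmt
    · rfl
  have hcard : Y.card ≤ J.L + 1 := by
    refine (Finset.card_le_two).trans ?_
    unfold TS.L; omega
  obtain ⟨τ, hτ, c, hc, hbad⟩ := hA.core.ol Y hYgen hcard ⟨x, by simp [hY], hmx⟩ V hVY hVl hVp hVN
  have hxY : x ∈ Y := by simp [hY]
  have hoYm : o' ∈ Y := by simp [hY]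
  have hxV : x ∈ V := (hVY x).2 hxY
  -- two odd seeds are impossible
  have two : ∀ {l r h : ℕ} {D : ℕ → Prop} {m : ℕ} {bad : List ℕ → Prop},
      GoodC (mkT l r h D m bad) Y main gen c → 2 ≤ r → False := by
    intro l r h D m bad H hr
    have A := ana H
    obtain ⟨a, ha, hma, ea⟩ := A.odd 0 (by omega)
    obtain ⟨b, hb, hmb, eb⟩ := A.odd 1 (by omega)
    rw [hmY a ha hma] at ea
    rw [hmY b hb hmb] at eb
    rw [ea, cc, cc] at eb
    omega
  rcases hτ with rfl | rfl | ⟨r, hr1, hr5, rfl⟩ | ⟨r, hr1, hr4, rfl⟩ | ⟨r, h, hh2, hrh, rfl⟩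
  · have A := ana hc
    obtain ⟨a, ha, hma, ea⟩ := A.odd 0 (by omega)
    rw [hmY a ha hma] at ea
    have eo : c o' = oo 0 := by
      rcases A.hub o' hoYm hom with ⟨i, hi, _⟩ | ⟨i, hi, e⟩
      · omega
      · rw [e]; congr 1; omega
    by_contra hne
    refine hbad (blk o' x m x) ⟨?_, ?_, ?_⟩ hN
    · intro t ht
      simp only [blk, List.mem_cons, List.mem_append, List.mem_replicate, List.not_mem_nil,
        or_false] at ht
      rcases ht with rfl | ⟨_, rfl⟩ | rfl
      · exact hxY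
      · exact hoYm
      · exact hxY
    · right
      refine ⟨?_, Or.inr (Or.inr ⟨m, hne, ?_⟩)⟩
      · simp [blk]; omega
      · simp [blk, ea, eo]
    · intro s hs
      obtain ⟨i, hi, rfl⟩ | ⟨i, hi, _⟩ := mem_sds.1 hs
      · have : i = 0 := by omega
        subst this
        rw [← ea]
        exact List.mem_map_of_mem (by simp [blk])
      · omega
  · exact absurd (two hc (by norm_num)) id
  · rcases Nat.lt_or_ge r 2 with hr | hr
    · have hr' : r = 1 := by omega
      subst hr'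
      have A := ana hc
      obtain ⟨a, ha, hma, ea⟩ := A.odd 0 (by omega)
      rw [hmY a ha hma] at ea
      exact absurd hVN (hbad V (bad_G0 hc (fun t ht => (hVY t).1 ht) hVp hVl
        (fun i hi => ⟨x, hxV, by rw [ea]; congr 1; omega⟩) ⟨o', ho', hom⟩
        fun t ht hmt => ⟨0, by omega, by rw [hmY t ((hVY t).1 ht) hmt, ea]⟩))
    · exact absurd (two hc hr) id
  · rcases Nat.lt_or_ge r 2 with hr | hr
    · have hr' : r = 1 := by omega
      subst hr'
      have A := ana hc
      obtain ⟨a, ha, hma, ea⟩ := A.odd 0 (by omega)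
      rw [hmY a ha hma] at ea
      obtain ⟨b, hb, hmb, eb⟩ := A.even 0 (by omega)
      rw [hoY b hb hmb] at eb
      exact absurd hVN (hbad V (bad_G1 hc (fun t ht => (hVY t).1 ht) hVp hVl
        (fun i hi => ⟨x, hxV, by rw [ea]; congr 1; omega⟩) ⟨o', ho', eb⟩
        (fun t ht hmt => ⟨0, by omega, by rw [hmY t ((hVY t).1 ht) hmt, ea]⟩)
        fun t ht hmt => by rw [hoY t ((hVY t).1 ht) hmt, eb]))
    · exact absurd (two hc hr) id
  · have A := ana hc
    obtain ⟨a, ha, hma, ea⟩ := A.even 0 (by omega)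
    obtain ⟨b, hb, hmb, eb⟩ := A.even 1 (by omega)
    rw [hoY a ha hma] at ea
    rw [hoY b hb hmb] at eb
    rw [ea, kk, kk] at eb
    omega

end Pool.Agent.Lib.MP_226ef1_lc.U.H39
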