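import Pool.Agent.Lib.MP_226ef1_lc.U.Tools

/-!
# A4: the closed legal structure
-/

set_option autoImplicit false

namespace Pool.Agent.Lib.MP_226ef1_lc.U.H39

universe u

theorem p_le {J : TS} (hJ : J.WF) {k : ℕ} (hk : J.inJ k = true) : J.p k + 2 ≤ J.L := by
  have := hJ.lt k hk
  unfold TS.p TS.L
  omega

theorem p_inj {J : TS} {i j : ℕ} (h : J.p i = J.p j) : i = j := by
  unfold TS.p at h; omega

theorem A4 : A4Statement.{u} := by
  classical
  intro J hJ α G main gen N o hA hT1 hA1 hA3
  have hom : ¬ main o := (hA.hub o hA.oG).2 rfl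
  have hrep : ∀ W : List α, (∀ w ∈ W, w ∈ G ∧ ¬ main w) → W = List.replicate W.length o := by
    intro W hW
    refine List.eq_replicate_of_mem fun w hw => ?_
    exact (hA.hub w (hW w hw).1).1 (hW w hw).2
  set V : Finset α := G.filter fun x => main x ∧ gen1 gen x with hV
  have hVm : ∀ x, x ∈ V ↔ x ∈ G ∧ main x ∧ gen1 gen x := fun x => by rw [hV, Finset.mem_filter]
  set tf : α → α → ℕ := fun x y => if h : ∃ t, IsTy J gen N o x y t then h.choose else 0 with htf
  have tfs : ∀ x y, x ∈ V → y ∈ G → main y → y ≠ x → IsTy J gen N o x y (tf x y) := by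
    intro x y hx hy hmy hne
    obtain ⟨hxG, hmx, hgx⟩ := (hVm x).1 hx
    have h := hA3 x hxG hmx hgx y hy hmy hne
    rw [htf]
    simp only [dif_pos h]
    exact h.choose_spec
  -- uniqueness
  have uniq : ∀ x y t, x ∈ V → y ∈ G → main y → y ≠ x → J.inJ t = true →
      N (blk o x (J.p t) y) → t = tf x y := by
    intro x y t hx hy hmy hne ht hN
    exact p_inj ((( tfs x y hx hy hmy hne).2.1 _ (p_le hJ ht)).1 hN)
  refine ⟨V, ?_, fun x y => tf x y, ?_⟩
  · obtain ⟨x, hx, hmx, hg⟩ := hA.ex
    exact ⟨x, (hVm x).2 ⟨hx, hmx, hg⟩⟩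
  · refine ⟨fun x y hne => ?_, fun x y hne => ?_, fun x y z hxy hyz hzx => ?_, fun x => ?_⟩
    · have hy := (hVm y).1 y.2
      exact (tfs x y x.2 hy.1 hy.2.1 fun h => hne (Subtype.ext h.symm)).1
    · have hx := (hVm x).1 x.2
      have hy := (hVm y).1 y.2
      have h1 := tfs x y x.2 hy.1 hy.2.1 fun h => hne (Subtype.ext h.symm)
      have h2 := tfs y x y.2 hx.1 hx.2.1 fun h => hne (Subtype.ext h)
      have h3 := (h2.2.1 (J.p (tf y x)) (p_le hJ h2.1)).2 rfl
      exact p_inj ((h1.2.2.1 (J.p (tf y x)) (p_le hJ h2.1)).1 h3)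
    · have hx := (hVm x).1 x.2
      have hy := (hVm y).1 y.2
      have hz := (hVm z).1 z.2
      have hxy' : (x : α) ≠ y := fun h => hxy (Subtype.ext h)
      have hyz' : (y : α) ≠ z := fun h => hyz (Subtype.ext h)
      have hzx' : (z : α) ≠ x := fun h => hzx (Subtype.ext h)
      obtain ⟨Z, hZ, hZx⟩ := hx.2.2
      have hgen : ∃ Z, gen Z ∧ ∀ t, t ∈ Z ↔ t = (x : α) ∨ t = y ∨ t = z := by
        refine ⟨{(x : α), (y : α), (z : α)}, hA.core.gen_up Z _ hZ ?_ ?_, fun t => ?_⟩
        · intro t ht
          rw [(hZx t).1 ht]; simp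
        · intro t ht
          simp only [Finset.mem_insert, Finset.mem_singleton] at ht
          rcases ht with rfl | rfl | rfl
          · exact hx.1
          · exact hy.1
          · exact hz.1
        · simp
      obtain ⟨i, j, k, hi, hj, hk, hleg, W1, W2, W3, hW, h1, h2, h3, hN⟩ :=
        hA.cons.c4 x y z hxy' hyz' hzx' hx.2.1 hy.2.1 hz.2.1 hgen
      have e1 := hrep W1 fun w hw => hW w (by simp [hw])
      have e2 := hrep W2 fun w hw => hW w (by simp [hw])
      have e3 := hrep W3 fun w hw => hW w (by simp [hw])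
      rw [h1] at e1
      rw [h2] at e2
      rw [h3] at e3
      subst e1 e2 e3
      have hpar0 : ∀ n, par main (List.replicate n o) = 0 := fun n =>
        par_eq_zero_of_forall fun a ha => by rw [(List.mem_replicate.1 ha).2]; exact hom
      have hpb : ∀ (a b : α) n, main a → main b → par main (blk o a n b) = 0 := by
        intro a b n ha hb
        rw [blk, par_cons_pos ha, par_append, hpar0, par_singleton_pos hb]
      have hmemG : ∀ t ∈ (x : α) :: (List.replicate (J.p i) o ++ (y : α) ::
          (List.replicate (J.p j) o ++ (z : α) :: (List.replicate (J.p k) o ++ [(x : α)]))),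
          t ∈ G := by
        intro t ht
        simp only [List.mem_cons, List.mem_append, List.mem_replicate, List.not_mem_nil,
          or_false] at ht
        rcases ht with rfl | ⟨_, rfl⟩ | rfl | ⟨_, rfl⟩ | rfl | ⟨_, rfl⟩ | rfl
        · exact hx.1
        · exact hA.oG
        · exact hy.1
        · exact hA.oG
        · exact hz.1
        · exact hA.oG
        · exact hx.1
      have hpar : par main ((x : α) :: (List.replicate (J.p i) o ++ (y : α) ::
          (List.replicate (J.p j) o ++ (z : α) :: (List.replicate (J.p k) o ++ [(x : α)])))) = 0 := by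
        rw [par_cons_pos hx.2.1, par_append, hpar0, par_cons_pos hy.2.1, par_append, hpar0,
          par_cons_pos hz.2.1, par_append, hpar0, par_singleton_pos hx.2.1]
      have n1 : N (blk o x (J.p i) y) := by
        refine hA.core.fac [] _ (List.replicate (J.p j) o ++ (z : α) ::
          (List.replicate (J.p k) o ++ [(x : α)])) ?_ (by simp [blk]) (hpb _ _ _ hx.2.1 hy.2.1)
          ?_ ?_
        · intro t ht; exact hmemG t (by simpa [blk] using ht)
        · simpa [blk] using hpar
        · simpa [blk] using hN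
      have n2 : N (blk o y (J.p j) z) := by
        refine hA.core.fac ((x : α) :: List.replicate (J.p i) o) _
          (List.replicate (J.p k) o ++ [(x : α)]) ?_ (by simp [blk]) (hpb _ _ _ hy.2.1 hz.2.1)
          ?_ ?_
        · intro t ht; exact hmemG t (by simpa [blk] using ht)
        · simpa [blk] using hpar
        · simpa [blk] using hN
      have n3 : N (blk o z (J.p k) x) := by
        refine hA.core.fac ((x : α) :: (List.replicate (J.p i) o ++ (y : α) ::
          List.replicate (J.p j) o)) _ [] ?_ (by simp [blk]) (hpb _ _ _ hz.2.1 hx.2.1)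
          ?_ ?_
        · intro t ht; exact hmemG t (by simpa [blk] using ht)
        · simpa [blk] using hpar
        · simpa [blk] using hN
      rw [← uniq x y i x.2 hy.1 hy.2.1 (fun h => hxy' h.symm) hi n1,
        ← uniq y z j y.2 hz.1 hz.2.1 (fun h => hyz' h.symm) hj n2,
        ← uniq z x k z.2 hx.1 hx.2.1 (fun h => hzx' h.symm) hk n3]
      exact hleg
    · by_contra hcon
      push Not at hcon
      have hx := (hVm x).1 x.2
      obtain ⟨W, hW, hWl, hcase⟩ := hT1 x hx.1 hx.2.1 hx.2.2 (fun y => tf x y) (by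
        intro y hy hmy hne
        have h1 := tfs x y x.2 hy hmy hne
        refine ⟨h1.1, ?_⟩
        rcases h1.2.2.2 with h2 | h2
        · exact h2
        · have hyV : y ∈ V := (hVm y).2 ⟨hy, hmy, h2⟩
          have := hcon ⟨y, hyV⟩ (fun h => hne (congrArg Subtype.val h))
          simpa using this)
      have e := hrep W hW
      rcases hcase with ⟨y, hy, hmy, hne, hlen, hN⟩ | ⟨y, hy, hmy, hne, hlen, hN⟩ | ⟨hlen, hN⟩
      · rw [e] at hN
        exact hlen (((tfs x y x.2 hy hmy hne).2.1 _ hWl).1 hN)
      · rw [e] at hN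
        exact hlen (((tfs x y x.2 hy hmy hne).2.2.1 _ hWl).1 hN)
      · rw [e] at hN
        exact hlen (hA1 x hx.1 hx.2.1 hx.2.2 _ hWl hN)

end Pool.Agent.Lib.MP_226ef1_lc.U.H39
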