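import Pool.Agent.Lib.MP_226ef1_lc.U.Tools

/-!
# Analysis of good colourings for the templates
-/

set_option autoImplicit false

namespace Pool.Agent.Lib.MP_226ef1_lc.U.H39

universe u

theorem mem_sds {r h s : ℕ} : s ∈ sds r h ↔ (∃ i < r, s = cc i) ∨ (∃ i < h, s = kk i) := by
  simp [sds, eq_comm]

theorem cc_mem {r h i : ℕ} (hi : i < r) : cc i ∈ sds r h := mem_sds.2 (Or.inl ⟨i, hi, rfl⟩)
theorem kk_mem {r h i : ℕ} (hi : i < h) : kk i ∈ sds r h := mem_sds.2 (Or.inr ⟨i, hi, rfl⟩)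

/-- the general analysis -/
structure Ana {α : Type u} (r h : ℕ) (D : ℕ → Prop) (m : ℕ) (Y : Finset α) (main : α → Prop)
    (gen : Finset α → Prop) (c : α → ℕ) : Prop where
  odd : ∀ i < r, ∃ x ∈ Y, main x ∧ c x = cc i
  even : ∀ i < h, ∃ x ∈ Y, ¬ main x ∧ c x = kk i
  mains : ∀ x ∈ Y, main x → (∃ i < r, c x = cc i) ∨ (∃ k, D k ∧ c x = dd k)
  hub : ∀ x ∈ Y, ¬ main x → (∃ i < h, c x = kk i) ∨ (∃ i < m, c x = oo i)
  cover : ∀ Y' ⊆ Y, (∀ i < r, ∃ x ∈ Y', c x = cc i) → (∀ i < h, ∃ x ∈ Y', c x = kk i) → gen Y'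

theorem ana {α : Type u} {l r h : ℕ} {D : ℕ → Prop} {m : ℕ} {bad : List ℕ → Prop} {Y : Finset α}
    {main : α → Prop} {gen : Finset α → Prop} {c : α → ℕ}
    (H : GoodC (mkT l r h D m bad) Y main gen c) : Ana r h D m Y main gen c := by
  obtain ⟨h1, h2, h3⟩ := H
  have hs : (mkT l r h D m bad).seeds = sds r h := rfl
  have hc : ∀ x, (mkT l r h D m bad).cols x ↔ (∃ i, i < r ∧ x = cc i) ∨ (∃ i, i < h ∧ x = kk i) ∨
      (∃ k, D k ∧ x = dd k) ∨ (∃ i, i < m ∧ x = oo i) := fun x => Iff.rfl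
  rw [hs] at h2 h3
  refine ⟨fun i hi => ?_, fun i hi => ?_, fun x hx hm => ?_, fun x hx hm => ?_,
    fun Y' hY' ho he => h3 Y' hY' fun s hss => ?_⟩
  · obtain ⟨x, hx, hcx⟩ := h2 _ (cc_mem hi)
    refine ⟨x, hx, (h1 x hx).2.2 ?_, hcx⟩
    rw [hcx, cc]; omega
  · obtain ⟨x, hx, hcx⟩ := h2 _ (kk_mem hi)
    refine ⟨x, hx, fun hm => ?_, hcx⟩
    have := (h1 x hx).2.1 hm
    rw [hcx, kk] at this; omega
  · have h4 := (h1 x hx).2.1 hm
    rcases (hc _).1 (h1 x hx).1 with ⟨i, hi, e⟩ | ⟨i, hi, e⟩ | ⟨k, hk, e⟩ | ⟨i, hi, e⟩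
    · exact Or.inl ⟨i, hi, e⟩
    · rw [e, kk] at h4; omega
    · exact Or.inr ⟨k, hk, e⟩
    · rw [e, oo] at h4; omega
  · have h4 : ¬ c x % 2 = 1 := fun h => hm ((h1 x hx).2.2 h)
    rcases (hc _).1 (h1 x hx).1 with ⟨i, hi, e⟩ | ⟨i, hi, e⟩ | ⟨k, hk, e⟩ | ⟨i, hi, e⟩
    · rw [e, cc] at h4; omega
    · exact Or.inl ⟨i, hi, e⟩
    · rw [e, dd] at h4; omega
    · exact Or.inr ⟨i, hi, e⟩
  · rcases mem_sds.1 hss with ⟨i, hi, rfl⟩ | ⟨i, hi, rfl⟩
    · exact ho i hi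
    · exact he i hi

/-- the sum of the image of a word is even iff the number of mains is even -/
theorem sum_even {α : Type u} {τ : Tm} {Y : Finset α} {main : α → Prop} {gen : Finset α → Prop}
    {c : α → ℕ} (H : GoodC τ Y main gen c) {V : List α} (hV : ∀ x ∈ V, x ∈ Y)
    (hp : par main V = 0) : (V.map c).sum % 2 = 0 := by
  rw [sum_map_mod (main := main) fun a ha => (H.1 a (hV a ha)).2, hp]

/-- `V` is bad for `G(r,0)` if it covers the seeds and contains a hub -/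
theorem bad_G0 {α : Type u} {J : TS} {r : ℕ} {Y : Finset α} {main : α → Prop}
    {gen : Finset α → Prop} {c : α → ℕ} (H : GoodC (G0 J r) Y main gen c) {V : List α}
    (hV : ∀ x ∈ V, x ∈ Y) (hp : par main V = 0) (hl : V.length = J.L)
    (h1 : ∀ i < r, ∃ x ∈ V, c x = cc i) (h2 : ∃ o ∈ V, ¬ main o)
    (h3 : ∀ x ∈ V, main x → ∃ i < r, c x = cc i) : BadIn (G0 J r) Y c V := by
  have A := ana H
  have hcon : ∀ s, s ∈ V.map c ↔ (s ∈ sds r 0 ∨ s = oo 0) := by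
    intro s
    rw [List.mem_map]
    constructor
    · rintro ⟨x, hx, rfl⟩
      by_cases hm : main x
      · obtain ⟨i, hi, e⟩ := h3 x hx hm
        left; rw [e]; exact cc_mem hi
      · rcases A.hub x (hV x hx) hm with ⟨i, hi, _⟩ | ⟨i, hi, e⟩
        · omega
        · right; rw [e]; congr 1; omega
    · rintro (hs | rfl)
      · rcases mem_sds.1 hs with ⟨i, hi, rfl⟩ | ⟨i, hi, _⟩
        · exact h1 i hi
        · omega
      · obtain ⟨o, ho, hom⟩ := h2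
        refine ⟨o, ho, ?_⟩
        rcases A.hub o (hV o ho) hom with ⟨i, hi, _⟩ | ⟨i, hi, e⟩
        · omega
        · rw [e]; congr 1; omega
  refine ⟨hV, Or.inr ⟨by rw [List.length_map, hl], sum_even H hV hp, hcon⟩, fun s hs => ?_⟩
  exact (hcon s).2 (Or.inl hs)

/-- `V` is bad for `G(r,1)` if its content is mapped exactly to the seeds -/
theorem bad_G1 {α : Type u} {J : TS} {r : ℕ} {Y : Finset α} {main : α → Prop}
    {gen : Finset α → Prop} {c : α → ℕ} (H : GoodC (G1 J r) Y main gen c) {V : List α}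
    (hV : ∀ x ∈ V, x ∈ Y) (hp : par main V = 0) (hl : V.length = J.L)
    (h1 : ∀ i < r, ∃ x ∈ V, c x = cc i) (h2 : ∃ o ∈ V, c o = kk 0)
    (h3 : ∀ x ∈ V, main x → ∃ i < r, c x = cc i) (h4 : ∀ x ∈ V, ¬ main x → c x = kk 0) :
    BadIn (G1 J r) Y c V := by
  have hcon : ∀ s, s ∈ V.map c ↔ s ∈ sds r 1 := by
    intro s
    rw [List.mem_map]
    constructor
    · rintro ⟨x, hx, rfl⟩
      by_cases hm : main x
      · obtain ⟨i, hi, e⟩ := h3 x hx hm
        rw [e]; exact cc_mem hi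
      · rw [h4 x hx hm]; exact kk_mem (by omega)
    · intro hs
      rcases mem_sds.1 hs with ⟨i, hi, rfl⟩ | ⟨i, hi, rfl⟩
      · exact h1 i hi
      · have : i = 0 := by omega
        subst this
        exact h2
  exact ⟨hV, Or.inr ⟨by rw [List.length_map, hl], sum_even H hV hp, hcon⟩,
    fun s hs => (hcon s).2 hs⟩

end Pool.Agent.Lib.MP_226ef1_lc.U.H39
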