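import Pool.Agent.Lib.MP_226ef1_lc.U.H39.Ana

/-!
# B1: a minimal generating set contains no hub
-/

set_option autoImplicit false

namespace Pool.Agent.Lib.MP_226ef1_lc.U.H39

universe u

/-- templates without even seeds: the mains of `Y` are generating -/
theorem gen_filter {α : Type u} {l r : ℕ} {D : ℕ → Prop} {m : ℕ} {bad : List ℕ → Prop}
    {Y : Finset α} {main : α → Prop} [DecidablePred main] {gen : Finset α → Prop} {c : α → ℕ}
    (H : GoodC (mkT l r 0 D m bad) Y main gen c) : gen (Y.filter main) := by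
  have A := ana H
  refine A.cover _ (Finset.filter_subset _ _) (fun i hi => ?_) (fun i hi => by omega)
  obtain ⟨x, hx, hm, e⟩ := A.odd i hi
  exact ⟨x, Finset.mem_filter.2 ⟨hx, hm⟩, e⟩

/-- templates with two even seeds: there are two hubs in `Y` -/
theorem two_hubs {α : Type u} {l r h : ℕ} {D : ℕ → Prop} {m : ℕ} {bad : List ℕ → Prop}
    {Y : Finset α} {main : α → Prop} {gen : Finset α → Prop} {c : α → ℕ}
    (H : GoodC (mkT l r h D m bad) Y main gen c) (hh : 2 ≤ h) (o : α)
    (ho : ∀ x ∈ Y, ¬ main x → x = o) : False := by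
  have A := ana H
  obtain ⟨a, ha, hma, ea⟩ := A.even 0 (by omega)
  obtain ⟨b, hb, hmb, eb⟩ := A.even 1 (by omega)
  rw [ho a ha hma] at ea
  rw [ho b hb hmb] at eb
  rw [ea, kk, kk] at eb
  omega

theorem B1 : B1Statement.{u} := by
  classical
  intro J hJ α G main gen N hC hS hno W hW hW5 hmin o hoW hom
  have hL : 5 ≤ J.L + 1 := by unfold TS.L; omega
  have hWG : W ⊆ G := (hC.gen_sub W hW).2
  have huniq : ∀ x ∈ W, ¬ main x → x = o := fun x hx hm => hS.c1 W hW hW5 x hx o hoW hm hom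
  by_cases hex : ∃ x ∈ W, main x
  · obtain ⟨V, hVW, hVl, hVp, hVN⟩ := hS.c2 W hW hW5 o hoW hom
      (fun x hx hne => by_contra fun hm => hne (huniq x hx hm)) hex
    obtain ⟨τ, hτ, c, hc, hbad⟩ := hC.ol W hW (hW5.trans hL) hex V hVW hVl hVp hVN
    have noh : ∀ {l r : ℕ} {D : ℕ → Prop} {m : ℕ} {bad : List ℕ → Prop},
        GoodC (mkT l r 0 D m bad) W main gen c → False := by
      intro l r D m bad H
      have h1 := hmin _ (Finset.filter_subset _ _) (gen_filter H)
      rw [← h1] at hoW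
      exact hom (Finset.mem_filter.1 hoW).2
    rcases hτ with rfl | rfl | ⟨r, hr1, hr5, rfl⟩ | ⟨r, hr1, hr4, rfl⟩ | ⟨r, h, hh2, hrh, rfl⟩
    · exact noh hc
    · exact noh hc
    · exact noh hc
    · have A := ana hc
      have h1 : gen (W.filter fun x => c x ∈ sds r 1) := by
        refine A.cover _ (Finset.filter_subset _ _) (fun i hi => ?_) (fun i hi => ?_)
        · obtain ⟨x, hx, hm, e⟩ := A.odd i hi
          exact ⟨x, Finset.mem_filter.2 ⟨hx, by rw [e]; exact cc_mem hi⟩, e⟩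
        · obtain ⟨x, hx, hm, e⟩ := A.even i hi
          exact ⟨x, Finset.mem_filter.2 ⟨hx, by rw [e]; exact kk_mem hi⟩, e⟩
      have h2 := hmin _ (Finset.filter_subset _ _) h1
      have h3 : ∀ x ∈ W, c x ∈ sds r 1 := by
        intro x hx
        rw [← h2] at hx
        exact (Finset.mem_filter.1 hx).2
      refine hbad V (bad_G1 hc (fun t ht => (hVW t).1 ht) hVp hVl ?_ ?_ ?_ ?_) hVN
      · intro i hi
        obtain ⟨x, hx, hm, e⟩ := A.odd i hi
        exact ⟨x, (hVW x).2 hx, e⟩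
      · obtain ⟨x, hx, hm, e⟩ := A.even 0 (by omega)
        exact ⟨x, (hVW x).2 hx, e⟩
      · intro x hx hm
        rcases mem_sds.1 (h3 x ((hVW x).1 hx)) with h4 | ⟨i, hi, e⟩
        · exact h4
        · rcases A.mains x ((hVW x).1 hx) hm with h5 | ⟨k, _, e'⟩
          · exact h5
          · rw [e, kk, dd] at e'; omega
      · intro x hx hm
        rcases mem_sds.1 (h3 x ((hVW x).1 hx)) with ⟨i, hi, e⟩ | ⟨i, hi, e⟩
        · rcases A.hub x ((hVW x).1 hx) hm with ⟨j, _, e'⟩ | ⟨j, _, e'⟩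
          · rw [e, cc, kk] at e'; omega
          · rw [e, cc, oo] at e'; omega
        · rw [e]; congr 1; omega
    · exact two_hubs hc hh2 o huniq
  · push Not at hex
    obtain ⟨x, hx, hmx⟩ := hC.exMain
    have hWo : ∀ t ∈ W, t = o := fun t ht => huniq t ht (hex t ht)
    set Z : Finset α := {x, o} with hZ
    have hZG : Z ⊆ G := by
      intro t ht
      rw [hZ, Finset.mem_insert, Finset.mem_singleton] at ht
      rcases ht with rfl | rfl
      · exact hx
      · exact hWG hoW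
    have hZgen : gen Z := hC.gen_up W Z hW (fun t ht => by rw [hWo t ht, hZ]; simp) hZG
    have hZ5 : Z.card ≤ 5 := (Finset.card_le_two).trans (by norm_num)
    have hxZ : x ∈ Z := by simp [hZ]
    have hoZ : o ∈ Z := by simp [hZ]
    have hmZ : ∀ t ∈ Z, main t → t = x := by
      intro t ht hmt
      rw [hZ, Finset.mem_insert, Finset.mem_singleton] at ht
      rcases ht with rfl | rfl
      · rfl
      · exact absurd hmt hom
    have hhZ : ∀ t ∈ Z, ¬ main t → t = o := by
      intro t ht hmt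
      rw [hZ, Finset.mem_insert, Finset.mem_singleton] at ht
      rcases ht with rfl | rfl
      · exact absurd hmx hmt
      · rfl
    obtain ⟨V, hVZ, hVl, hVp, hVN⟩ := hS.c2 Z hZgen hZ5 o hoZ hom
      (fun t ht hne => by_contra fun hm => hne (hhZ t ht hm)) ⟨x, hxZ, hmx⟩
    obtain ⟨τ, hτ, c, hc, hbad⟩ := hC.ol Z hZgen (hZ5.trans hL) ⟨x, hxZ, hmx⟩ V hVZ hVl hVp hVN
    have noh : ∀ {l r : ℕ} {D : ℕ → Prop} {m : ℕ} {bad : List ℕ → Prop},
        GoodC (mkT l r 0 D m bad) Z main gen c → False := by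
      intro l r D m bad H
      refine hno x hx hmx ⟨_, gen_filter H, fun t => ?_⟩
      rw [Finset.mem_filter]
      constructor
      · rintro ⟨ht, hmt⟩
        exact hmZ t ht hmt
      · rintro rfl
        exact ⟨hxZ, hmx⟩
    rcases hτ with rfl | rfl | ⟨r, hr1, hr5, rfl⟩ | ⟨r, hr1, hr4, rfl⟩ | ⟨r, h, hh2, hrh, rfl⟩
    · exact noh hc
    · exact noh hc
    · exact noh hc
    · have A := ana hc
      obtain ⟨a, ha, hma, ea⟩ := A.odd 0 (by omega)
      rw [hmZ a ha hma] at ea
      obtain ⟨b, hb, hmb, eb⟩ := A.even 0 (by omega)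
      rw [hhZ b hb hmb] at eb
      refine hbad V (bad_G1 hc (fun t ht => (hVZ t).1 ht) hVp hVl ?_ ?_ ?_ ?_) hVN
      · intro i hi
        obtain ⟨y, hy, hm, e⟩ := A.odd i hi
        exact ⟨y, (hVZ y).2 hy, e⟩
      · exact ⟨o, (hVZ o).2 hoZ, eb⟩
      · intro y hy hm
        exact ⟨0, by omega, by rw [hmZ y ((hVZ y).1 hy) hm, ea]⟩
      · intro y hy hm
        rw [hhZ y ((hVZ y).1 hy) hm, eb]
    · exact two_hubs hc hh2 o hhZ

end Pool.Agent.Lib.MP_226ef1_lc.U.H39
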