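import Pool.Agent.Lib.MP_226ef1_lc.U.H39.Ana

/-!
# CONST1: the consequence of the Block Lemma for `T1`
-/

set_option autoImplicit false

namespace Pool.Agent.Lib.MP_226ef1_lc.U.H39

universe u

theorem map_eq_blk {α : Type u} {c : α → ℕ} {v : List α} {o a b n : ℕ}
    (h : v.map c = blk o a n b) : ∃ x W y, v = x :: (W ++ [y]) ∧ c x = a ∧ c y = b ∧
      W.length = n ∧ ∀ w ∈ W, c w = o := by
  rw [blk, List.map_eq_cons_iff] at h
  obtain ⟨x, w1, rfl, hx, h1⟩ := h
  rw [List.map_eq_append_iff] at h1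
  obtain ⟨W, w2, rfl, hW, h2⟩ := h1
  rw [List.map_eq_cons_iff] at h2
  obtain ⟨y, w3, rfl, hy, h3⟩ := h2
  rw [List.map_eq_nil_iff] at h3
  subst h3
  have hl : W.length = n := by
    have := congrArg List.length hW
    simpa using this
  refine ⟨x, W, y, rfl, hx, hy, hl, fun w hw => ?_⟩
  have : c w ∈ List.replicate n o := by rw [← hW]; exact List.mem_map_of_mem hw
  exact (List.mem_replicate.1 this).2

theorem consT1 : ConsT1Statement.{u} := by
  classical
  intro J hJ α G main gen N hC x hx hmx hg t ht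
  obtain ⟨Z, hZ, hZx⟩ := hg
  set c : α → ℕ := fun y => if y = x then cc 0 else if main y then dd (t y) else oo 0 with hcdef
  have cx : c x = cc 0 := by simp [hcdef]
  have cm : ∀ y, main y → y ≠ x → c y = dd (t y) := fun y hm hne => by simp [hcdef, hm, hne]
  have ch : ∀ y, ¬ main y → c y = oo 0 := by
    intro y hm
    have hne : y ≠ x := fun h => hm (h ▸ hmx)
    simp [hcdef, hm, hne]
  have inv1 : ∀ y, c y = cc 0 → y = x := by
    intro y h
    by_contra hne
    by_cases hm : main y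
    · rw [cm y hm hne, dd, cc] at h; omega
    · rw [ch y hm, oo, cc] at h; omega
  have inv2 : ∀ y k, c y = dd k → main y ∧ y ≠ x ∧ t y = k := by
    intro y k h
    by_cases hne : y = x
    · rw [hne, cx, dd, cc] at h; omega
    · by_cases hm : main y
      · refine ⟨hm, hne, ?_⟩
        rw [cm y hm hne, dd, dd] at h; omega
      · rw [ch y hm, oo, dd] at h; omega
  have inv3 : ∀ y, c y = oo 0 → ¬ main y := by
    intro y h hm
    by_cases hne : y = x
    · rw [hne, cx, oo, cc] at h; omega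
    · rw [cm y hm hne, dd, oo] at h; omega
  have hgood : GoodC (T1 J) G main gen c := by
    refine ⟨fun y hy => ?_, fun s hs => ?_, fun Y' hY' hcov => ?_⟩
    · by_cases hne : y = x
      · subst hne
        rw [cx]
        refine ⟨Or.inl ⟨0, by omega, rfl⟩, fun _ => by rw [cc], fun _ => hmx⟩
      · by_cases hm : main y
        · rw [cm y hm hne]
          exact ⟨Or.inr (Or.inr (Or.inl ⟨t y, ht y hy hm hne, rfl⟩)),
            fun _ => by rw [dd]; omega, fun _ => hm⟩
        · rw [ch y hm]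
          exact ⟨Or.inr (Or.inr (Or.inr ⟨0, by omega, rfl⟩)), fun h => absurd h hm,
            fun h => by rw [oo] at h; omega⟩
    · rcases mem_sds.1 hs with ⟨i, hi, rfl⟩ | ⟨i, hi, _⟩
      · have : i = 0 := by omega
        subst this
        exact ⟨x, hx, cx⟩
      · omega
    · obtain ⟨y, hy, hcy⟩ := hcov (cc 0) (cc_mem (by omega))
      have := inv1 y hcy
      subst this
      exact hC.gen_up Z Y' hZ (fun z hz => by rw [(hZx z).1 hz]; exact hy) hY'
  obtain ⟨v, ⟨hvG, hvb, hvf⟩, hvN⟩ := hC.bl (T1 J) (Or.inl rfl) c hgood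
  rcases hvb with hnf | ⟨hlen, ⟨k, n, hk1, hk2, hn, he⟩ | ⟨k, n, hk1, hk2, hn, he⟩ | ⟨n, hn, he⟩⟩
  · exact absurd hvf hnf.2.2
  · obtain ⟨a, W, b, rfl, ha, hb, hWl, hW⟩ := map_eq_blk he
    obtain ⟨hmb, hbx, htb⟩ := inv2 b k hb
    have hax := inv1 a ha
    subst hax
    refine ⟨W, fun w hw => ⟨hvG w (by simp [hw]), inv3 w (hW w hw)⟩, ?_,
      Or.inl ⟨b, hvG b (by simp), hmb, hbx, by rw [hWl, htb]; exact hn, hvN⟩⟩
    simp at hlen; omega
  · obtain ⟨a, W, b, rfl, ha, hb, hWl, hW⟩ := map_eq_blk he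
    obtain ⟨hma, hax, hta⟩ := inv2 a k ha
    have hbx := inv1 b hb
    subst hbx
    refine ⟨W, fun w hw => ⟨hvG w (by simp [hw]), inv3 w (hW w hw)⟩, ?_,
      Or.inr (Or.inl ⟨a, hvG a (by simp), hma, hax, by rw [hWl, hta]; exact hn, hvN⟩)⟩
    simp at hlen; omega
  · obtain ⟨a, W, b, rfl, ha, hb, hWl, hW⟩ := map_eq_blk he
    have hax := inv1 a ha
    have hbx := inv1 b hb
    subst hax
    subst hbx
    refine ⟨W, fun w hw => ⟨hvG w (by simp [hw]), inv3 w (hW w hw)⟩, ?_,
      Or.inr (Or.inr ⟨by rw [hWl]; exact hn, hvN⟩)⟩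
    simp at hlen; omega

end Pool.Agent.Lib.MP_226ef1_lc.U.H39
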